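import Mathlib
import Pool.Agent.Lib.helper31.TJoin

namespace Pool.Agent.Results.MP_f46ce3_an.BeurlingSetExists

open Set Filter Topology Pool.Agent.Lib.helper31.TJoin

section Defs
variable {X I : Type*} [MetricSpace X]

/-- The difference quotient `D_{u,v} g`. -/
noncomputable def dq (u v : X) (g : X → ℝ) : ℝ := (g u - g v) / dist u v

/-- `g ∈ Lip₀(X)` for the base point `o`. -/
def Lip0 (o : X) (g : X → ℝ) : Prop := g o = 0 ∧ ∃ K, LipschitzWith K g

/-- `T : Lip₀(X) → ℓ∞(I)` is onto. -/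
def Interpolating (o : X) (x y : I → X) : Prop :=
  ∀ α : I → ℝ, (∃ C, ∀ i, |α i| ≤ C) → ∃ g, Lip0 o g ∧ ∀ i, dq (x i) (y i) g = α i

/-- Every `α` in the closed unit ball of `ℓ∞(I)` has a preimage under `T` of norm at most `K`. -/
def Admissible (o : X) (x y : I → X) (K : ℝ) : Prop :=
  ∀ α : I → ℝ, (∀ i, |α i| ≤ 1) → ∃ g : X → ℝ, g o = 0 ∧
    (∀ u v, |g u - g v| ≤ K * dist u v) ∧ ∀ i, dq (x i) (y i) g = α i

/-- The interpolation constant `M`. -/
noncomputable def interpConst (o : X) (x y : I → X) : ℝ := sInf {K | 1 ≤ K ∧ Admissible o x y K}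

open Classical in
/-- `f` is a Beurling set for the family with constant `M`. -/
def BeurlingSet (o : X) (x y : I → X) (M : ℝ) (f : I → X → ℝ) : Prop :=
  (∀ i, Lip0 o (f i)) ∧ (∀ i j, dq (x j) (y j) (f i) = if i = j then 1 else 0) ∧
    ∀ u v, u ≠ v → ∑' i, ENNReal.ofReal |dq u v (f i)| ≤ ENNReal.ofReal M

end Defs

variable {X I : Type*} [MetricSpace X] {o : X} {x y : I → X}

theorem exists_adm (h : Interpolating o x y) : ∃ K, 1 ≤ K ∧ Admissible o x y K := by
  let S : ℕ → Set (X → ℝ) := fun n => {g | g o = 0 ∧ ∀ u v, |g u - g v| ≤ n * dist u v}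
  have hS : ∀ n, IsCompact (S n) := by
    intro n
    refine (isCompact_univ_pi fun u => isCompact_Icc (a := -(n * dist u o))
      (b := n * dist u o)).of_isClosed_subset ?_ ?_
    · simp only [S, ofPred_and, ofPred_forall]
      exact (isClosed_eq (continuous_apply o) continuous_const).inter
        (isClosed_iInter fun u => isClosed_iInter fun v =>
          isClosed_le (by fun_prop) continuous_const)
    · intro g hg u _
      have := hg.2 u o
      rw [hg.1, sub_zero] at this
      exact abs_le.1 this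
  let T : (X → ℝ) → I → ℝ := fun g i => dq (x i) (y i) g
  have hT : Continuous T := continuous_pi fun i => by
    simp only [T, dq]
    fun_prop
  let A : ℕ → Set (lp (fun _ : I => ℝ) ⊤) := fun n => (fun α => (α : I → ℝ)) ⁻¹' (T '' S n)
  have hA : ∀ n, IsClosed (A n) := fun n =>
    ((hS n).image hT).isClosed.preimage lp.uniformContinuous_coe.continuous
  have hU : ⋃ n, A n = univ := by
    refine eq_univ_of_forall fun α => ?_
    obtain ⟨g, ⟨h0, K, hK⟩, hg⟩ := h α ⟨‖α‖, fun i => lp.norm_apply_le_norm (by simp) α i⟩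
    obtain ⟨n, hn⟩ := exists_nat_ge (K : ℝ)
    refine mem_iUnion.2 ⟨n, g, ⟨h0, fun u v => ?_⟩, funext hg⟩
    exact (hK.dist_le_mul u v).trans (by gcongr)
  obtain ⟨n, α, hα⟩ := nonempty_interior_of_iUnion_of_closed hA hU
  obtain ⟨r, hr, hb⟩ := Metric.isOpen_iff.1 isOpen_interior α hα
  refine ⟨max 1 (4 * n / r), le_max_left _ _, fun β hβ => ?_⟩
  let β' : lp (fun _ : I => ℝ) ⊤ := ⟨β, memℓp_infty ⟨1, by rintro _ ⟨i, rfl⟩; exact hβ i⟩⟩
  have hn : ‖β'‖ ≤ 1 := lp.norm_le_of_forall_le zero_le_one hβ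
  obtain ⟨g0, ⟨a0, b0⟩, c0⟩ := interior_subset hα
  obtain ⟨g1, ⟨a1, b1⟩, c1⟩ : α + (r / 2) • β' ∈ A n := interior_subset (hb (by
    rw [mem_ball_iff_norm, add_sub_cancel_left, norm_smul, Real.norm_of_nonneg (by positivity)]
    nlinarith))
  refine ⟨fun u => (2 / r) * (g1 u - g0 u), by simp [a0, a1], fun u v => ?_, fun i => ?_⟩
  · have e : 2 / r * (g1 u - g0 u) - 2 / r * (g1 v - g0 v) =
        2 / r * ((g1 u - g1 v) - (g0 u - g0 v)) := by ring
    rw [e, abs_mul, abs_of_pos (by positivity)]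
    have h1 := (abs_sub _ _).trans (add_le_add (b1 u v) (b0 u v))
    calc _ ≤ 2 / r * (n * dist u v + n * dist u v) := by gcongr
      _ = 4 * n / r * dist u v := by ring
      _ ≤ _ := by gcongr; exact le_max_right _ _
  · have e0 : dq (x i) (y i) g0 = α i := congrFun c0 i
    have e1 : dq (x i) (y i) g1 = α i + r / 2 * β i := congrFun c1 i
    have : dq (x i) (y i) (fun u => (2 / r) * (g1 u - g0 u)) =
        2 / r * (dq (x i) (y i) g1 - dq (x i) (y i) g0) := by
      simp only [dq]; ring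
    rw [this, e0, e1]
    field_simp
    ring

theorem finite_step (hne : ∀ i, x i ≠ y i) (h : Interpolating o x y) (X0 : Finset X)
    (I0 : Finset I) (N : ℕ) : ∃ F : I → X → ℝ, (∀ i, F i o = 0) ∧
      (∀ u ∈ X0, ∀ v ∈ X0, ∑ i ∈ I0, |F i u - F i v| ≤
        interpConst o x y * dist u v + 1 / (N + 1)) ∧
      (∀ j ∈ I0, ∑ i ∈ I0, |F i (x j) - F i (y j)| ≤ dist (x j) (y j)) ∧
      ∀ j ∈ I0, dist (x j) (y j) - 1 / (N + 1) ≤ F j (x j) - F j (y j) := by
  classical
  set M := interpConst o x y with hM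
  have hne' : {K | 1 ≤ K ∧ Admissible o x y K}.Nonempty := exists_adm h
  have hM1 : 1 ≤ M := le_csInf hne' fun K hK => hK.1
  let E := (X0 × X0) ⊕ I0
  let s : E → X := Sum.elim (fun p => p.1) (fun i => x i)
  let t : E → X := Sum.elim (fun p => p.2) (fun i => y i)
  let c : E → ℝ := Sum.elim (fun p => M * dist (p.1 : X) p.2) (fun i => - dist (x i) (y i))
  have hc : ∀ Z, Cyc s t Z → 0 ≤ ∑ e ∈ Z, c e := by
    intro Z hZ
    obtain ⟨ε, hε, hg⟩ := orient Z o o (fun p => (hZ p).trans (z2 _).symm)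
    let a : E → ℝ := Sum.elim (fun p => dist (p.1 : X) p.2) (fun _ => 0)
    let b : E → ℝ := Sum.elim (fun _ => 0) (fun i => dist (x i) (y i))
    have ha : 0 ≤ ∑ e ∈ Z, a e := Finset.sum_nonneg fun e _ => by
      rcases e with e | e
      · exact dist_nonneg
      · exact le_rfl
    have key : ∀ K ∈ {K | 1 ≤ K ∧ Admissible o x y K}, ∑ e ∈ Z, b e ≤ K * ∑ e ∈ Z, a e := by
      intro K hK
      obtain ⟨g, -, g1, g2⟩ := hK.2 (fun i => if hi : i ∈ I0 then ε (Sum.inr ⟨i, hi⟩) else 0)
        (fun i => by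
          split_ifs
          · exact (hε _).le
          · simp)
      have h0 := hg g
      rw [sub_self] at h0
      rw [← sub_nonpos, Finset.mul_sum, ← Finset.sum_sub_distrib, ← h0]
      refine Finset.sum_le_sum fun e _ => ?_
      rcases e with e | e
      · have h1 := g1 e.1 e.2
        have h2 : |ε (Sum.inl e) * (g e.1 - g e.2)| ≤ K * dist (e.1 : X) e.2 := by
          rwa [abs_mul, hε, one_mul]
        have := (abs_le.1 h2).1
        simpa [a, b, s, t] using this
      · have h1 := g2 e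
        have hd : 0 < dist (x e) (y e) := dist_pos.2 (hne e)
        rw [dq, div_eq_iff hd.ne', dif_pos e.2] at h1
        have h2 : ε (Sum.inr e) * ε (Sum.inr e) = 1 := by
          rw [← abs_mul_abs_self, hε, one_mul]
        simp only [a, b, s, t, Sum.elim_inr, mul_zero, sub_zero, h1]
        rw [← mul_assoc, h2, one_mul]
    have key2 : ∑ e ∈ Z, b e ≤ M * ∑ e ∈ Z, a e := by
      rcases ha.eq_or_lt with h0 | h0
      · obtain ⟨K, hK⟩ := hne'
        have := key K hK
        rw [← h0] at this ⊢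
        simpa using this
      · rw [← div_le_iff₀ h0]
        exact le_csInf hne' fun K hK => (div_le_iff₀ h0).2 (key K hK)
    have : ∑ e ∈ Z, c e = M * ∑ e ∈ Z, a e - ∑ e ∈ Z, b e := by
      rw [Finset.mul_sum, ← Finset.sum_sub_distrib]
      refine Finset.sum_congr rfl fun e _ => ?_
      rcases e with e | e <;> simp [a, b, c]
    linarith
  have hN : (0 : ℝ) < N + 1 := by positivity
  obtain ⟨f, f1, f2⟩ := packing _ s t (fun e => 2 * ⌈(N + 1) * c e⌉) rfl
    (fun Z hZ => by
      have h1 := hc Z hZ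
      have h2 : (0 : ℝ) ≤ ∑ e ∈ Z, ((2 * ⌈(N + 1) * c e⌉ : ℤ) : ℝ) := by
        refine le_trans (mul_nonneg (by positivity : (0 : ℝ) ≤ 2 * (N + 1)) h1) ?_
        rw [Finset.mul_sum]
        refine Finset.sum_le_sum fun e _ => ?_
        have := Int.le_ceil ((N + 1) * c e)
        push_cast
        linarith
      exact_mod_cast h2)
    ⟨0, fun e => by
      push_cast
      have : (2 : ZMod 2) = 0 := rfl
      simp [this]⟩
  let F : I → X → ℝ := fun i u =>
    if hi : i ∈ I0 then ((f (Sum.inr ⟨i, hi⟩) u - f (Sum.inr ⟨i, hi⟩) o : ℤ) : ℝ) / (2 * (N + 1))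
    else 0
  have hF : ∀ (i : I0) u v, F i u - F i v =
      ((f (Sum.inr i) u - f (Sum.inr i) v : ℤ) : ℝ) / (2 * (N + 1)) := by
    intro i u v
    simp only [F, i.2, dif_pos]
    push_cast
    ring
  have hsum : ∀ g : E, ∑ i ∈ I0, |F i (s g) - F i (t g)| ≤ |(⌈(N + 1) * c g⌉ : ℝ)| / (N + 1) := by
    intro g
    have h1 := f2 g
    rw [Fintype.sum_sum_type] at h1
    have h2 : ∑ i : I0, |f (Sum.inr i) (s g) - f (Sum.inr i) (t g)| ≤ |2 * ⌈(N + 1) * c g⌉| :=
      le_trans (le_add_of_nonneg_left (Finset.sum_nonneg fun _ _ => abs_nonneg _)) h1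
    have h3 : ∑ i : I0, |((f (Sum.inr i) (s g) - f (Sum.inr i) (t g) : ℤ) : ℝ)| ≤
        2 * |(⌈(N + 1) * c g⌉ : ℝ)| := by
      rw [abs_mul] at h2
      exact_mod_cast h2
    rw [← Finset.sum_coe_sort I0]
    simp only [hF, abs_div, abs_of_pos (by positivity : (0 : ℝ) < 2 * (N + 1))]
    rw [← Finset.sum_div, div_le_div_iff₀ (by positivity) hN]
    nlinarith
  refine ⟨F, fun i => by simp [F], fun u hu v hv => ?_, fun j hj => ?_, fun j hj => ?_⟩
  · refine (hsum (Sum.inl (⟨u, hu⟩, ⟨v, hv⟩))).trans ?_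
    have h0 : 0 ≤ (N + 1) * (M * dist u v) := by positivity
    have h1 := Int.ceil_lt_add_one ((N + 1) * (M * dist u v))
    have h2 := Int.le_ceil ((N + 1) * (M * dist u v))
    simp only [c, Sum.elim_inl]
    rw [abs_of_nonneg (by linarith), div_le_iff₀ hN, add_mul (M * dist u v),
      div_mul_cancel₀ _ hN.ne']
    linarith
  · refine (hsum (Sum.inr ⟨j, hj⟩)).trans ?_
    have h0 : (N + 1) * (- dist (x j) (y j)) ≤ 0 :=
      mul_nonpos_of_nonneg_of_nonpos hN.le (by simp)
    have h1 : ((⌈(N + 1) * (- dist (x j) (y j))⌉ : ℤ) : ℝ) ≤ 0 := by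
      exact_mod_cast Int.ceil_nonpos.2 h0
    have h2 := Int.le_ceil ((N + 1) * (- dist (x j) (y j)))
    simp only [c, Sum.elim_inr]
    rw [abs_of_nonpos h1, div_le_iff₀ hN]
    linarith
  · have h0 : (N + 1) * (- dist (x j) (y j)) ≤ 0 :=
      mul_nonpos_of_nonneg_of_nonpos hN.le (by simp)
    have h1 := f1 (Sum.inr ⟨j, hj⟩) (by
      have := Int.ceil_nonpos.2 h0
      simp only [c, Sum.elim_inr]
      omega)
    have h2 := Int.ceil_lt_add_one ((N + 1) * (- dist (x j) (y j)))
    simp only [c, s, t, Sum.elim_inr] at h1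
    rw [hF ⟨j, hj⟩, h1, le_div_iff₀ (by positivity), sub_mul]
    have h3 : 1 / ((N : ℝ) + 1) * (2 * (N + 1)) = 2 := by field_simp
    rw [h3]
    push_cast
    linarith

/-- Every Lipschitz interpolating family of pairs has a Beurling set. -/
theorem result (X I : Type*) [MetricSpace X] (o : X) (x y : I → X) (hne : ∀ i, x i ≠ y i)
    (h : Interpolating o x y) :
    {K | 1 ≤ K ∧ Admissible o x y K}.Nonempty ∧
      ∃ f : I → X → ℝ, BeurlingSet o x y (interpConst o x y) f := by
  classical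
  have hne' : {K | 1 ≤ K ∧ Admissible o x y K}.Nonempty := exists_adm h
  refine ⟨hne', ?_⟩
  set M := interpConst o x y with hM
  have hM1 : 1 ≤ M := le_csInf hne' fun K hK => hK.1
  choose F F0 F1 F2 F3 using fun α : Finset X × Finset I × ℕ =>
    finite_step hne h α.1 α.2.1 α.2.2
  let U : Ultrafilter (Finset X × Finset I × ℕ) := Ultrafilter.of atTop
  have hU : (U : Filter (Finset X × Finset I × ℕ)) ≤ atTop := Ultrafilter.of_le _
  have hX : ∀ u : X, ∀ᶠ α in (U : Filter (Finset X × Finset I × ℕ)), u ∈ α.1 := fun u =>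
    hU ((eventually_ge_atTop ({u}, ∅, 0)).mono fun α hα => hα.1 (Finset.mem_singleton_self u))
  have hI : ∀ S : Finset I, ∀ᶠ α in (U : Filter (Finset X × Finset I × ℕ)), S ⊆ α.2.1 := fun S =>
    hU ((eventually_ge_atTop (∅, S, 0)).mono fun α hα => hα.2.1)
  have hN : Tendsto (fun α : Finset X × Finset I × ℕ => 1 / ((α.2.2 : ℝ) + 1)) U (𝓝 0) := by
    refine tendsto_one_div_add_atTop_nhds_zero_nat.comp (Tendsto.mono_left ?_ hU)
    exact tendsto_atTop.2 fun n => (eventually_ge_atTop (∅, ∅, n)).mono fun α hα => hα.2.2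
  have hlim : ∀ i u, ∃ l, Tendsto (fun α => F α i u) U (𝓝 l) := by
    intro i u
    obtain ⟨l, -, hl⟩ := (isCompact_Icc (a := -(M * dist u o + 1))
      (b := M * dist u o + 1)).ultrafilter_le_nhds (U.map fun α => F α i u) (by
        rw [le_principal_iff, Ultrafilter.coe_map, mem_map]
        filter_upwards [hX u, hX o, hI {i}] with α h1 h2 h3
        have a1 := F1 α u h1 o h2
        have a2 := Finset.single_le_sum (f := fun i => |F α i u - F α i o|)
          (fun _ _ => abs_nonneg _) (h3 (Finset.mem_singleton_self i))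
        have a3 : 1 / ((α.2.2 : ℝ) + 1) ≤ 1 := by
          rw [div_le_one (by positivity)]
          linarith [(Nat.cast_nonneg α.2.2 : (0 : ℝ) ≤ α.2.2)]
        simp only [F0, sub_zero] at a1 a2
        exact abs_le.1 (by linarith))
    exact ⟨l, hl⟩
  choose f hf using hlim
  have hsum : ∀ (S : Finset I) u v, Tendsto (fun α => ∑ i ∈ S, |F α i u - F α i v|) U
      (𝓝 (∑ i ∈ S, |f i u - f i v|)) := fun S u v =>
    tendsto_finsetSum _ fun i _ => ((hf i u).sub (hf i v)).abs
  have g1 : ∀ (S : Finset I) u v, ∑ i ∈ S, |f i u - f i v| ≤ M * dist u v := by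
    intro S u v
    have := le_of_tendsto_of_tendsto (hsum S u v) (hN.const_add (M * dist u v)) (by
      filter_upwards [hX u, hX v, hI S] with α h1 h2 h3
      exact (Finset.sum_le_sum_of_subset_of_nonneg h3 fun _ _ _ => abs_nonneg _).trans
        (F1 α u h1 v h2))
    simpa using this
  have g2 : ∀ (S : Finset I) j, ∑ i ∈ S, |f i (x j) - f i (y j)| ≤ dist (x j) (y j) := by
    intro S j
    refine le_of_tendsto (hsum S _ _) ?_
    filter_upwards [hI S, hI {j}] with α h1 h2
    exact (Finset.sum_le_sum_of_subset_of_nonneg h1 fun _ _ _ => abs_nonneg _).trans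
      (F2 α j (h2 (Finset.mem_singleton_self j)))
  have g3 : ∀ j, dist (x j) (y j) ≤ f j (x j) - f j (y j) := by
    intro j
    have := le_of_tendsto_of_tendsto (hN.const_sub (dist (x j) (y j))) ((hf j _).sub (hf j _)) (by
      filter_upwards [hI {j}] with α h2
      exact F3 α j (h2 (Finset.mem_singleton_self j)))
    simpa using this
  refine ⟨f, fun i => ⟨?_, M.toNNReal, ?_⟩, fun i j => ?_, fun u v huv => ?_⟩
  · have := hf i o
    simp only [F0] at this
    exact tendsto_nhds_unique this tendsto_const_nhds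
  · refine LipschitzWith.of_dist_le_mul fun u v => ?_
    rw [Real.coe_toNNReal _ (by linarith), Real.dist_eq]
    simpa using g1 {i} u v
  · have hd : 0 < dist (x j) (y j) := dist_pos.2 (hne j)
    split_ifs with hij
    · subst hij
      have h1 := g2 {i} i
      rw [Finset.sum_singleton] at h1
      rw [dq, div_eq_one_iff_eq hd.ne']
      exact le_antisymm ((le_abs_self _).trans h1) (g3 i)
    · have h1 := g2 {i, j} j
      rw [Finset.sum_pair hij] at h1
      have h2 := (g3 j).trans (le_abs_self _)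
      have h3 : |f i (x j) - f i (y j)| ≤ 0 := by linarith
      rw [dq, abs_nonpos_iff.1 h3, zero_div]
  · have hd : 0 < dist u v := dist_pos.2 huv
    rw [ENNReal.tsum_eq_iSup_sum]
    refine iSup_le fun S => ?_
    rw [← ENNReal.ofReal_sum_of_nonneg fun _ _ => abs_nonneg _]
    refine ENNReal.ofReal_le_ofReal ?_
    simp only [dq, abs_div, abs_of_pos hd]
    rw [← Finset.sum_div, div_le_iff₀ hd]
    exact g1 S u v

end Pool.Agent.Results.MP_f46ce3_an.BeurlingSetExists
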